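import Pool.Agent.Helper158.FCD.CoreDefs

/-! Computability of the machine of `Pool/Agent/Helper158/FCD/Defs.lean`. -/

set_option autoImplicit false

namespace Pool.Agent.Helper158.FCD

section lists

variable {α β σ : Type*} [Primcodable α] [Primcodable β] [Primcodable σ]

lemma pr_all {f : α → List β} {p : α → β → Bool} (hf : Primrec f) (hp : Primrec₂ p) :
    Primrec (fun a => (f a).all (p a)) := by
  have h : Primrec (fun a => (f a).foldr (fun b r => p a b && r) true) := by
    refine Primrec.list_foldr (h := fun a (x : β × Bool) => p a x.1 && x.2) hf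
      (Primrec.const true) ?_
    exact Primrec.and.comp (hp.comp Primrec.fst (Primrec.fst.comp Primrec.snd))
      (Primrec.snd.comp Primrec.snd)
  refine h.of_eq (fun a => ?_)
  induction (f a) with
  | nil => rfl
  | cons b l ih => simp [List.foldr_cons, ih]

lemma pr_any {f : α → List β} {p : α → β → Bool} (hf : Primrec f) (hp : Primrec₂ p) :
    Primrec (fun a => (f a).any (p a)) := by
  have h : Primrec (fun a => (f a).foldr (fun b r => p a b || r) false) := by
    refine Primrec.list_foldr (h := fun a (x : β × Bool) => p a x.1 || x.2) hf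
      (Primrec.const false) ?_
    exact Primrec.or.comp (hp.comp Primrec.fst (Primrec.fst.comp Primrec.snd))
      (Primrec.snd.comp Primrec.snd)
  refine h.of_eq (fun a => ?_)
  induction (f a) with
  | nil => rfl
  | cons b l ih => simp [List.foldr_cons, ih]

lemma pr_filter {f : α → List β} {p : α → β → Bool} (hf : Primrec f) (hp : Primrec₂ p) :
    Primrec (fun a => (f a).filter (p a)) := by
  have h : Primrec (fun a => (f a).foldr (fun b r => bif p a b then b :: r else r) []) := by
    refine Primrec.list_foldr (h := fun a (x : β × List β) => bif p a x.1 then x.1 :: x.2 else x.2) hf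
      (Primrec.const []) ?_
    refine Primrec.cond (hp.comp Primrec.fst (Primrec.fst.comp Primrec.snd))
      (Primrec.list_cons.comp (Primrec.fst.comp Primrec.snd) (Primrec.snd.comp Primrec.snd))
      (Primrec.snd.comp Primrec.snd)
  refine h.of_eq (fun a => ?_)
  induction (f a) with
  | nil => rfl
  | cons b l ih => cases h : p a b <;> simp [h, ih]

end lists

/-! ### nodes and configurations -/

/-- nodes as tuples -/
def nodeEquiv : Node ≃ (ℕ × ℕ × Bool × List ℕ × Bool × Bool × ℕ × ℕ × List ℕ) where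
  toFun n := (n.c, n.rm, n.wait, n.dl, n.pf, n.pM, n.s0, n.s1, n.r)
  invFun p := ⟨p.1, p.2.1, p.2.2.1, p.2.2.2.1, p.2.2.2.2.1, p.2.2.2.2.2.1, p.2.2.2.2.2.2.1,
    p.2.2.2.2.2.2.2.1, p.2.2.2.2.2.2.2.2⟩
  left_inv _ := rfl
  right_inv _ := rfl

instance : Primcodable Node := Primcodable.ofEquiv _ nodeEquiv

lemma pr_nodeEquiv : Primrec nodeEquiv := Primrec.of_equiv

lemma pr_c : Primrec Node.c := Primrec.fst.comp pr_nodeEquiv
lemma pr_t1 : Primrec (fun n : Node => (nodeEquiv n).2) := Primrec.snd.comp pr_nodeEquiv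
lemma pr_rm : Primrec Node.rm := Primrec.fst.comp pr_t1
lemma pr_t2 : Primrec (fun n : Node => (nodeEquiv n).2.2) := Primrec.snd.comp pr_t1
lemma pr_wait : Primrec Node.wait := Primrec.fst.comp pr_t2
lemma pr_t3 : Primrec (fun n : Node => (nodeEquiv n).2.2.2) := Primrec.snd.comp pr_t2
lemma pr_dl : Primrec Node.dl := Primrec.fst.comp pr_t3
lemma pr_t4 : Primrec (fun n : Node => (nodeEquiv n).2.2.2.2) := Primrec.snd.comp pr_t3
lemma pr_pf : Primrec Node.pf := Primrec.fst.comp pr_t4
lemma pr_t5 : Primrec (fun n : Node => (nodeEquiv n).2.2.2.2.2) := Primrec.snd.comp pr_t4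
lemma pr_pM : Primrec Node.pM := Primrec.fst.comp pr_t5
lemma pr_t6 : Primrec (fun n : Node => (nodeEquiv n).2.2.2.2.2.2) := Primrec.snd.comp pr_t5
lemma pr_s0 : Primrec Node.s0 := Primrec.fst.comp pr_t6
lemma pr_t7 : Primrec (fun n : Node => (nodeEquiv n).2.2.2.2.2.2.2) := Primrec.snd.comp pr_t6
lemma pr_s1 : Primrec Node.s1 := Primrec.fst.comp pr_t7
lemma pr_r : Primrec Node.r := Primrec.snd.comp pr_t7

lemma pr_node {α : Type*} [Primcodable α] {c rm s0 s1 : α → ℕ} {wait pf pM : α → Bool}
    {dl r : α → List ℕ} (hc : Primrec c) (hrm : Primrec rm) (hwait : Primrec wait)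
    (hdl : Primrec dl) (hpf : Primrec pf) (hpM : Primrec pM) (hs0 : Primrec s0)
    (hs1 : Primrec s1) (hr : Primrec r) :
    Primrec (fun a => Node.mk (c a) (rm a) (wait a) (dl a) (pf a) (pM a) (s0 a) (s1 a) (r a)) := by
  have h : Primrec (fun a => (c a, rm a, wait a, dl a, pf a, pM a, s0 a, s1 a, r a)) :=
    hc.pair (hrm.pair (hwait.pair (hdl.pair (hpf.pair (hpM.pair (hs0.pair (hs1.pair hr)))))))
  exact (Primrec.of_equiv_symm (e := nodeEquiv)).comp h

/-- configurations as tuples -/
def cfgEquiv : Cfg ≃ (List (Path × Node) × Path × Bool × List ℕ) where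
  toFun C := (C.L, C.p, C.up, C.d)
  invFun p := ⟨p.1, p.2.1, p.2.2.1, p.2.2.2⟩
  left_inv _ := rfl
  right_inv _ := rfl

instance : Primcodable Cfg := Primcodable.ofEquiv _ cfgEquiv

lemma pr_cfgEquiv : Primrec cfgEquiv := Primrec.of_equiv

lemma pr_L : Primrec Cfg.L := Primrec.fst.comp pr_cfgEquiv
lemma pr_u1 : Primrec (fun n : Cfg => (cfgEquiv n).2) := Primrec.snd.comp pr_cfgEquiv
lemma pr_p : Primrec Cfg.p := Primrec.fst.comp pr_u1
lemma pr_u2 : Primrec (fun n : Cfg => (cfgEquiv n).2.2) := Primrec.snd.comp pr_u1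
lemma pr_up : Primrec Cfg.up := Primrec.fst.comp pr_u2
lemma pr_d : Primrec Cfg.d := Primrec.snd.comp pr_u2

lemma pr_cfg {α : Type*} [Primcodable α] {L : α → List (Path × Node)} {p : α → Path}
    {up : α → Bool} {d : α → List ℕ} (hL : Primrec L) (hp : Primrec p) (hup : Primrec up)
    (hd : Primrec d) : Primrec (fun a => Cfg.mk (L a) (p a) (up a) (d a)) :=
  (Primrec.of_equiv_symm (e := cfgEquiv)).comp (hL.pair (hp.pair (hup.pair hd)))

/-! ### basic operations -/

lemma pr_get : Primrec₂ get := by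
  have h : Primrec (fun x : List (Path × Node) × Path =>
      x.1.foldr (fun (e : Path × Node) (acc : Option Node) =>
        if e.1 = x.2 then some e.2 else acc) none) := by
    refine Primrec.list_foldr
      (h := fun (x : List (Path × Node) × Path) (y : (Path × Node) × Option Node) =>
        if y.1.1 = x.2 then some y.1.2 else y.2) Primrec.fst (Primrec.const none) ?_
    refine Primrec.ite ?_ ?_ ?_
    · exact Primrec.eq.comp (Primrec.fst.comp (Primrec.fst.comp Primrec.snd))
        (Primrec.snd.comp Primrec.fst)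
    · exact Primrec.option_some.comp (Primrec.snd.comp (Primrec.fst.comp Primrec.snd))
    · exact Primrec.snd.comp Primrec.snd
  exact h

lemma pr_par : Primrec₂ par := by
  have h : Primrec (fun x : List ℕ × ℕ =>
      x.1.foldr (fun (y : ℕ) (b : Bool) => xor (decide (y = x.2)) b) false) := by
    refine Primrec.list_foldr
      (h := fun (x : List ℕ × ℕ) (y : ℕ × Bool) => xor (decide (y.1 = x.2)) y.2)
      Primrec.fst (Primrec.const false) ?_
    refine (Primrec.dom_bool₂ xor).comp ?_ (Primrec.snd.comp Primrec.snd)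
    have : PrimrecPred (fun z : (List ℕ × ℕ) × ℕ × Bool => z.2.1 = z.1.2) :=
      Primrec.eq.comp (Primrec.fst.comp Primrec.snd) (Primrec.snd.comp Primrec.fst)
    exact this.decide
  exact h

lemma pr_suffix : PrimrecRel (fun q w : Path => q <:+ w) := by
  have h : PrimrecRel (fun q w : Path => q = w.drop (w.length - q.length)) := by
    refine Primrec.eq.comp₂ Primrec₂.left ?_
    exact Primrec.list_drop.comp₂
      (Primrec.nat_sub.comp₂ (Primrec.list_length.comp₂ Primrec₂.right)
        (Primrec.list_length.comp₂ Primrec₂.left)) Primrec₂.right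
  exact h.of_eq (fun q w => (List.suffix_iff_eq_drop).symm)

lemma pr_suf {α : Type*} [Primcodable α] {q w : α → Path} (o : Fin 4) (hq : Primrec q)
    (hw : Primrec w) : PrimrecPred (fun a => (o :: q a) <:+ w a) :=
  pr_suffix.comp (Primrec.list_cons.comp (Primrec.const o) hq) hw

lemma pr_Rel : PrimrecRel Rel := by
  have h : PrimrecPred (fun x : Path × Path => (0 :: x.1) <:+ x.2 ∨ (1 :: x.1) <:+ x.2 ∨
      (2 :: x.1) <:+ x.2) :=
    (pr_suf 0 Primrec.fst Primrec.snd).or
      ((pr_suf 1 Primrec.fst Primrec.snd).or (pr_suf 2 Primrec.fst Primrec.snd))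
  exact h

lemma pr_finlt {α : Type*} [Primcodable α] {o : α → Fin 4} (k : Fin 4) (ho : Primrec o) :
    PrimrecPred (fun a => o a < k) := by
  have h : PrimrecPred (fun o : Fin 4 => o < k) := by
    rw [primrecPred_iff_primrec_decide]
    exact Primrec.dom_finite _
  exact h.comp ho

lemma pr_Kill : PrimrecPred (fun x : Fin 4 × Path × Path => Kill x.1 x.2.1 x.2.2) := by
  have hq : Primrec (fun x : Fin 4 × Path × Path => x.2.1) := Primrec.fst.comp Primrec.snd
  have hw : Primrec (fun x : Fin 4 × Path × Path => x.2.2) := Primrec.snd.comp Primrec.snd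
  have ho : Primrec (fun x : Fin 4 × Path × Path => x.1) := Primrec.fst
  have h : PrimrecPred (fun x : Fin 4 × Path × Path =>
      (x.1 < 1 ∧ (1 :: x.2.1) <:+ x.2.2) ∨ (x.1 < 2 ∧ (2 :: x.2.1) <:+ x.2.2) ∨
      (x.1 < 3 ∧ (3 :: x.2.1) <:+ x.2.2)) :=
    ((pr_finlt 1 ho).and (pr_suf 1 hq hw)).or
      (((pr_finlt 2 ho).and (pr_suf 2 hq hw)).or ((pr_finlt 3 ho).and (pr_suf 3 hq hw)))
  exact h

/-- `ev` on a tuple -/
lemma pr_ev {α : Type*} [Primcodable α] {j t s c : α → ℕ} (hj : Primrec j) (ht : Primrec t)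
    (hs : Primrec s) (hc : Primrec c) : Primrec (fun a => ev (j a) (t a) (s a) (c a)) := by
  unfold ev
  exact Nat.Partrec.Code.primrec_evaln.comp
    ((ht.pair ((Primrec.ofNat Nat.Partrec.Code).comp hj)).pair (Primrec₂.natPair.comp hs hc))

lemma pr_bv {α : Type*} [Primcodable α] {j t s c : α → ℕ} (hj : Primrec j) (ht : Primrec t)
    (hs : Primrec s) (hc : Primrec c) : Primrec (fun a => bv (j a) (t a) (s a) (c a)) := by
  unfold bv
  have h : PrimrecPred (fun a => ev (j a) (t a) (s a) (c a) = some 1) :=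
    Primrec.eq.comp (pr_ev hj ht hs hc) (Primrec.const (some 1))
  exact h.decide

lemma pr_Phi {α : Type*} [Primcodable α] {j t c : α → ℕ} (hj : Primrec j) (ht : Primrec t)
    (hc : Primrec c) : PrimrecPred (fun a => Phi (j a) (t a) (c a)) := by
  unfold Phi
  exact Primrec.eq.comp (Nat.Partrec.Code.primrec_evaln.comp
    ((ht.pair ((Primrec.ofNat Nat.Partrec.Code).comp hj)).pair hc)) (Primrec.const (some 0))

/-! ### the pieces of the step -/

section ansf

variable {α : Type*} [Primcodable α]

/-- the tuple `(j, t, s0, s1, r)` together with a coordinate -/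
lemma pr_ansf {j t s0 s1 : α → ℕ} {r K : α → List ℕ} (hj : Primrec j) (ht : Primrec t)
    (hs0 : Primrec s0) (hs1 : Primrec s1) (hr : Primrec r) (hK : Primrec K) :
    Primrec (fun a => ansf (j a) (t a) (s0 a) (s1 a) (r a) (K a)) := by
  have kj : Primrec (fun x : α × ℕ => j x.1) := hj.comp Primrec.fst
  have kt : Primrec (fun x : α × ℕ => t x.1) := ht.comp Primrec.fst
  have k0 : Primrec (fun x : α × ℕ => s0 x.1) := hs0.comp Primrec.fst
  have k1 : Primrec (fun x : α × ℕ => s1 x.1) := hs1.comp Primrec.fst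
  have kr : Primrec (fun x : α × ℕ => r x.1) := hr.comp Primrec.fst
  have kc : Primrec (fun x : α × ℕ => x.2) := Primrec.snd
  have kle : Primrec (fun x : α × ℕ => decide (s0 x.1 ≤ x.2)) := by
    have : PrimrecPred (fun x : α × ℕ => s0 x.1 ≤ x.2) := Primrec.nat_le.comp k0 kc
    exact this.decide
  have h1 : Primrec (fun a => (K a).all (fun c =>
      (ev (j a) (t a) (s1 a) c).isSome && (decide (s0 a ≤ c) || (ev (j a) (t a) (s0 a) c).isSome))) := by
    refine pr_all (p := fun a c =>
      (ev (j a) (t a) (s1 a) c).isSome && (decide (s0 a ≤ c) || (ev (j a) (t a) (s0 a) c).isSome))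
      hK ?_
    exact Primrec.and.comp (Primrec.option_isSome.comp (pr_ev kj kt k1 kc))
      (Primrec.or.comp kle (Primrec.option_isSome.comp (pr_ev kj kt k0 kc)))
  have h2 : Primrec (fun a => (K a).all (fun c =>
      decide (s0 a ≤ c) || (bv (j a) (t a) (s1 a) c == bv (j a) (t a) (s0 a) c))) := by
    refine pr_all (p := fun a c =>
      decide (s0 a ≤ c) || (bv (j a) (t a) (s1 a) c == bv (j a) (t a) (s0 a) c)) hK ?_
    exact Primrec.or.comp kle (Primrec.beq.comp (pr_bv kj kt k1 kc) (pr_bv kj kt k0 kc))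
  have h3 : Primrec (fun a => (K a).all (fun c =>
      decide (s0 a ≤ c) || (bv (j a) (t a) (s1 a) c ==
        xor (bv (j a) (t a) (s0 a) c) (par (r a) c)))) := by
    refine pr_all (p := fun a c =>
      decide (s0 a ≤ c) || (bv (j a) (t a) (s1 a) c ==
        xor (bv (j a) (t a) (s0 a) c) (par (r a) c))) hK ?_
    exact Primrec.or.comp kle (Primrec.beq.comp (pr_bv kj kt k1 kc)
      ((Primrec.dom_bool₂ xor).comp (pr_bv kj kt k0 kc) (pr_par.comp kr kc)))
  have e : ∀ {f : α → Bool}, Primrec f → PrimrecPred (fun a => f a = true) := fun hf =>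
    Primrec.eq.comp hf (Primrec.const true)
  unfold ansf
  exact Primrec.ite (e h1) (Primrec.ite (e h2) (Primrec.const _)
    (Primrec.ite (e h3) (Primrec.const _) (Primrec.const _))) (Primrec.const _)

end ansf

lemma pr_fresh : Primrec fresh :=
  pr_node Primrec.id (Primrec.const 0) (Primrec.const false) (Primrec.const [])
    (Primrec.const true) (Primrec.const false) (Primrec.const 0) (Primrec.const 0)
    (Primrec.const [])

/-- look up, with the default value -/
lemma pr_look {α : Type*} [Primcodable α] {L : α → List (Path × Node)} {q : α → Path}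
    (hL : Primrec L) (hq : Primrec q) : Primrec (fun a => (get (L a) (q a)).getD (fresh 0)) :=
  Primrec.option_getD.comp (pr_get.comp hL hq) (Primrec.const (fresh 0))

lemma pr_rels : Primrec₂ rels := by
  have h1 : Primrec (fun x : List (Path × Node) × Path =>
      x.1.filter (fun e => decide (Rel x.2 e.1))) := by
    refine pr_filter (p := fun (x : List (Path × Node) × Path) (e : Path × Node) =>
      decide (Rel x.2 e.1)) Primrec.fst ?_
    have : PrimrecPred (fun z : (List (Path × Node) × Path) × (Path × Node) =>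
        Rel z.1.2 z.2.1) :=
      pr_Rel.comp (Primrec.snd.comp Primrec.fst) (Primrec.fst.comp Primrec.snd)
    exact this.decide
  have h2 : Primrec (fun x : List (Path × Node) × Path =>
      (x.1.filter (fun e => decide (Rel x.2 e.1))).map
        (fun e => ((get x.1 e.1).getD (fresh 0)).c)) := by
    refine Primrec.list_map (g := fun (x : List (Path × Node) × Path) (e : Path × Node) =>
      ((get x.1 e.1).getD (fresh 0)).c) h1 ?_
    exact pr_c.comp (pr_look (Primrec.fst.comp Primrec.fst) (Primrec.fst.comp Primrec.snd))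
  exact h2

lemma pr_true {α : Type*} [Primcodable α] {f : α → Bool} (hf : Primrec f) :
    PrimrecPred (fun a => f a = true) := Primrec.eq.comp hf (Primrec.const true)

lemma pr_rm2 : Primrec (fun n : Node => if n.rm = 0 then 0 else 2) :=
  Primrec.ite (Primrec.eq.comp pr_rm (Primrec.const 0)) (Primrec.const 0) (Primrec.const 2)

/-- the time stamp -/
lemma pr_ts : Primrec (fun x : ℕ × Node => if x.2.wait then x.2.s1 else x.1) :=
  Primrec.ite (pr_true (pr_wait.comp Primrec.snd)) (pr_s1.comp Primrec.snd) Primrec.fst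

lemma pr_nw : Primrec₂ nw := by
  have h : Primrec (fun x : ℕ × Node => nw x.1 x.2) := by
    unfold nw
    exact pr_node (pr_c.comp Primrec.snd) (pr_rm2.comp Primrec.snd) (Primrec.const true)
      (pr_dl.comp Primrec.snd) (pr_pf.comp Primrec.snd) (pr_pM.comp Primrec.snd)
      (pr_s0.comp Primrec.snd) pr_ts (pr_r.comp Primrec.snd)
  exact h

lemma pr_na : Primrec (fun x : (ℕ × Node) × Bool => na x.1.1 x.1.2 x.2) := by
  have hn : Primrec (fun x : (ℕ × Node) × Bool => x.1.2) := Primrec.snd.comp Primrec.fst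
  unfold na
  exact pr_node (pr_c.comp hn) (pr_rm2.comp hn) (Primrec.const false)
    (pr_dl.comp hn) (pr_pf.comp hn) ((Primrec.dom_bool₂ xor).comp (pr_pM.comp hn) Primrec.snd)
    (pr_ts.comp Primrec.fst) (pr_ts.comp Primrec.fst) (pr_r.comp hn)

lemma pr_outc : Primrec₂ outc := Primrec.dom_bool₂ outc

/-! ### the step -/

/-- the configuration after going up to `q` along `o` -/
def stepUp (C : Cfg) (o : Fin 4) (q : Path) : Cfg :=
  if o = 3 then ⟨C.L, q, true, C.d⟩
  else if ((get C.L q).getD (fresh 0)).pf = true then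
    ⟨(q, ⟨((get C.L q).getD (fresh 0)).c, ((get C.L q).getD (fresh 0)).rm,
      ((get C.L q).getD (fresh 0)).wait, C.d, ((get C.L q).getD (fresh 0)).pf,
      ((get C.L q).getD (fresh 0)).pM, ((get C.L q).getD (fresh 0)).s0,
      ((get C.L q).getD (fresh 0)).s1, C.d⟩) :: C.L, q, true, C.d⟩
  else
    ⟨(q, ⟨((get C.L q).getD (fresh 0)).c, ((get C.L q).getD (fresh 0)).rm,
      ((get C.L q).getD (fresh 0)).wait, ((get C.L q).getD (fresh 0)).dl, true,
      ((get C.L q).getD (fresh 0)).pM, ((get C.L q).getD (fresh 0)).s0,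
      ((get C.L q).getD (fresh 0)).s1, ((get C.L q).getD (fresh 0)).dl ++ C.d⟩) :: C.L,
      q, true, ((get C.L q).getD (fresh 0)).dl ++ C.d⟩

lemma pr_stepUp : Primrec (fun x : (Cfg × Fin 4) × Path => stepUp x.1.1 x.1.2 x.2) := by
  have hC : Primrec (fun x : (Cfg × Fin 4) × Path => x.1.1) := Primrec.fst.comp Primrec.fst
  have ho : Primrec (fun x : (Cfg × Fin 4) × Path => x.1.2) := Primrec.snd.comp Primrec.fst
  have hq : Primrec (fun x : (Cfg × Fin 4) × Path => x.2) := Primrec.snd
  have hL := pr_L.comp hC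
  have hd := pr_d.comp hC
  have hn : Primrec (fun x : (Cfg × Fin 4) × Path => (get x.1.1.L x.2).getD (fresh 0)) :=
    pr_look hL hq
  have hdd := Primrec.list_append.comp (pr_dl.comp hn) hd
  unfold stepUp
  refine Primrec.ite (Primrec.eq.comp ho (Primrec.const 3))
    (pr_cfg hL hq (Primrec.const true) hd)
    (Primrec.ite (pr_true (pr_pf.comp hn)) ?_ ?_)
  · refine pr_cfg (Primrec.list_cons.comp (hq.pair ?_) hL) hq (Primrec.const true) hd
    exact pr_node (pr_c.comp hn) (pr_rm.comp hn) (pr_wait.comp hn) hd (pr_pf.comp hn)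
      (pr_pM.comp hn) (pr_s0.comp hn) (pr_s1.comp hn) hd
  · refine pr_cfg (Primrec.list_cons.comp (hq.pair ?_) hL) hq (Primrec.const true) hdd
    exact pr_node (pr_c.comp hn) (pr_rm.comp hn) (pr_wait.comp hn) (pr_dl.comp hn)
      (Primrec.const true) (pr_pM.comp hn) (pr_s0.comp hn) (pr_s1.comp hn) hdd

/-- the step after an answer `b` at a node `n` -/
def stepAns (t : ℕ) (C : Cfg) (n : Node) (b : Bool) : Cfg :=
  if (n.pf && xor n.pM b) = true then
    ⟨(C.p, ⟨(na t n b).c, (na t n b).rm, false, n.dl, false, (na t n b).pM, (na t n b).s0,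
      (na t n b).s1, n.dl⟩) :: C.L, C.p, true, n.dl⟩
  else
    ⟨(C.p, na t n b) ::
      C.L.filter (fun e => !decide (Kill (outc n.pf (xor n.pM b)) C.p e.1)),
      outc n.pf (xor n.pM b) :: C.p, false, []⟩

lemma pr_stepAns : Primrec (fun x : ((ℕ × Cfg) × Node) × Bool =>
    stepAns x.1.1.1 x.1.1.2 x.1.2 x.2) := by
  have ht : Primrec (fun x : ((ℕ × Cfg) × Node) × Bool => x.1.1.1) :=
    Primrec.fst.comp (Primrec.fst.comp Primrec.fst)
  have hC : Primrec (fun x : ((ℕ × Cfg) × Node) × Bool => x.1.1.2) :=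
    Primrec.snd.comp (Primrec.fst.comp Primrec.fst)
  have hn : Primrec (fun x : ((ℕ × Cfg) × Node) × Bool => x.1.2) :=
    Primrec.snd.comp Primrec.fst
  have hb : Primrec (fun x : ((ℕ × Cfg) × Node) × Bool => x.2) := Primrec.snd
  have hx : Primrec (fun x : ((ℕ × Cfg) × Node) × Bool => xor x.1.2.pM x.2) :=
    (Primrec.dom_bool₂ xor).comp (pr_pM.comp hn) hb
  have ha : Primrec (fun x : ((ℕ × Cfg) × Node) × Bool => na x.1.1.1 x.1.2 x.2) :=
    pr_na.comp ((ht.pair hn).pair hb)
  have hL := pr_L.comp hC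
  have hp := pr_p.comp hC
  have hou : Primrec (fun x : ((ℕ × Cfg) × Node) × Bool => outc x.1.2.pf (xor x.1.2.pM x.2)) :=
    pr_outc.comp (pr_pf.comp hn) hx
  unfold stepAns
  refine Primrec.ite (pr_true (Primrec.and.comp (pr_pf.comp hn) hx)) ?_ ?_
  · refine pr_cfg (Primrec.list_cons.comp (hp.pair ?_) hL) hp (Primrec.const true) (pr_dl.comp hn)
    exact pr_node (pr_c.comp ha) (pr_rm.comp ha) (Primrec.const false) (pr_dl.comp hn)
      (Primrec.const false) (pr_pM.comp ha) (pr_s0.comp ha) (pr_s1.comp ha) (pr_dl.comp hn)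
  · refine pr_cfg (Primrec.list_cons.comp (hp.pair ha) ?_) (Primrec.list_cons.comp hou hp)
      (Primrec.const false) (Primrec.const [])
    refine pr_filter (p := fun (x : ((ℕ × Cfg) × Node) × Bool) (e : Path × Node) =>
      !decide (Kill (outc x.1.2.pf (xor x.1.2.pM x.2)) x.1.1.2.p e.1)) hL ?_
    have : PrimrecPred (fun z : (((ℕ × Cfg) × Node) × Bool) × (Path × Node) =>
        Kill (outc z.1.1.2.pf (xor z.1.1.2.pM z.1.2)) z.1.1.1.2.p z.2.1) :=
      pr_Kill.comp ((hou.comp Primrec.fst).pair ((hp.comp Primrec.fst).pair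
        (Primrec.fst.comp Primrec.snd)))
    exact Primrec.not.comp this.decide

/-- the step down at a node `n` -/
def stepDown (t : ℕ) (C : Cfg) (n : Node) : Cfg :=
  if n.rm = 0 ∧ Phi C.p.length t n.c then
    ⟨(C.p, ⟨n.c, 1, n.wait, n.dl, n.pf, n.pM, n.s0, n.s1, n.r⟩) :: C.L, C.p, true, [n.c]⟩
  else
    Option.casesOn (ansf C.p.length t n.s0 (if n.wait then n.s1 else t) n.r (rels C.L C.p))
      (⟨(C.p, nw t n) :: C.L, 3 :: C.p, false, []⟩ : Cfg) (fun b => stepAns t C n b)

lemma pr_stepDown : Primrec (fun x : (ℕ × Cfg) × Node => stepDown x.1.1 x.1.2 x.2) := by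
  have ht : Primrec (fun x : (ℕ × Cfg) × Node => x.1.1) := Primrec.fst.comp Primrec.fst
  have hC : Primrec (fun x : (ℕ × Cfg) × Node => x.1.2) := Primrec.snd.comp Primrec.fst
  have hn : Primrec (fun x : (ℕ × Cfg) × Node => x.2) := Primrec.snd
  have hL := pr_L.comp hC
  have hp := pr_p.comp hC
  have hlen : Primrec (fun x : (ℕ × Cfg) × Node => x.1.2.p.length) := Primrec.list_length.comp hp
  unfold stepDown
  refine Primrec.ite ((Primrec.eq.comp (pr_rm.comp hn) (Primrec.const 0)).and
    (pr_Phi hlen ht (pr_c.comp hn))) ?_ ?_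
  · refine pr_cfg (Primrec.list_cons.comp (hp.pair ?_) hL) hp (Primrec.const true)
      (Primrec.list_cons.comp (pr_c.comp hn) (Primrec.const []))
    exact pr_node (pr_c.comp hn) (Primrec.const 1) (pr_wait.comp hn) (pr_dl.comp hn)
      (pr_pf.comp hn) (pr_pM.comp hn) (pr_s0.comp hn) (pr_s1.comp hn) (pr_r.comp hn)
  · refine Primrec.option_casesOn ?_ ?_ ?_
    · exact pr_ansf hlen ht (pr_s0.comp hn) (pr_ts.comp (ht.pair hn)) (pr_r.comp hn)
        (pr_rels.comp hL hp)
    · exact pr_cfg (Primrec.list_cons.comp (hp.pair (pr_nw.comp ht hn)) hL)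
        (Primrec.list_cons.comp (Primrec.const 3) hp) (Primrec.const false) (Primrec.const [])
    · exact pr_stepAns

lemma step_eq (t : ℕ) (C : Cfg) : step t C =
    if C.up = true then
      List.casesOn C.p (⟨C.L, [], false, []⟩ : Cfg) (fun o q => stepUp C o q)
    else
      Option.casesOn (get C.L C.p) (⟨(C.p, fresh t) :: C.L, C.p, true, []⟩ : Cfg)
        (fun n => stepDown t C n) := by
  unfold step
  by_cases h : C.up = true
  · rw [if_pos h, if_pos h]
    cases hp : C.p with
    | nil => rfl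
    | cons o q =>
      simp only [stepUp]
  · rw [if_neg h, if_neg h]
    cases hg : get C.L C.p with
    | none => rfl
    | some n =>
      simp only [stepDown]
      by_cases h1 : n.rm = 0 ∧ Phi C.p.length t n.c
      · rw [if_pos h1, if_pos h1]
      · rw [if_neg h1, if_neg h1]
        cases hz : ansf C.p.length t n.s0 (if n.wait then n.s1 else t) n.r (rels C.L C.p) with
        | none => rfl
        | some b => simp only [stepAns]

lemma pr_step : Primrec₂ step := by
  have hC : Primrec (fun x : ℕ × Cfg => x.2) := Primrec.snd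
  have ht : Primrec (fun x : ℕ × Cfg => x.1) := Primrec.fst
  have hL := pr_L.comp hC
  have hp := pr_p.comp hC
  have h : Primrec (fun x : ℕ × Cfg =>
    if x.2.up = true then
      (List.casesOn x.2.p (⟨x.2.L, [], false, []⟩ : Cfg) (fun o q => stepUp x.2 o q) : Cfg)
    else
      (Option.casesOn (get x.2.L x.2.p) (⟨(x.2.p, fresh x.1) :: x.2.L, x.2.p, true, []⟩ : Cfg)
        (fun n => stepDown x.1 x.2 n) : Cfg)) := by
    refine Primrec.ite (pr_true (pr_up.comp hC)) ?_ ?_
    · refine Primrec.list_casesOn (f := fun x : ℕ × Cfg => x.2.p)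
        (g := fun x : ℕ × Cfg => (⟨x.2.L, [], false, []⟩ : Cfg))
        (h := fun (x : ℕ × Cfg) (y : Fin 4 × Path) => stepUp x.2 y.1 y.2) hp ?_ ?_
      · exact pr_cfg hL (Primrec.const []) (Primrec.const false) (Primrec.const [])
      · exact pr_stepUp.comp (((hC.comp Primrec.fst).pair (Primrec.fst.comp Primrec.snd)).pair
          (Primrec.snd.comp Primrec.snd))
    · refine Primrec.option_casesOn (pr_get.comp hL hp) ?_ ?_
      · exact pr_cfg (Primrec.list_cons.comp (hp.pair (pr_fresh.comp ht)) hL) hp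
          (Primrec.const true) (Primrec.const [])
      · exact pr_stepDown
  exact h.of_eq (fun x => (step_eq x.1 x.2).symm)

/-! ### the run -/

theorem pr_run : Primrec run := by
  have h : Primrec (Nat.rec (⟨[], [], false, []⟩ : Cfg) (fun t C => step t C) : ℕ → Cfg) :=
    Primrec.nat_rec₁ (f := fun t C => step t C) _ pr_step
  refine h.of_eq (fun t => ?_)
  induction t with
  | zero => rfl
  | succ t ih => simp only [run, ← ih]

theorem pr_mv : Primrec mv := by
  have h1 : PrimrecPred (fun t => (run t).up = true ∧ (run t).p = []) :=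
    (pr_true (pr_up.comp pr_run)).and (Primrec.eq.comp (pr_p.comp pr_run) (Primrec.const []))
  exact Primrec.ite h1 (pr_d.comp pr_run) (Primrec.const [])

theorem pr_dead : Primrec₂ dead := by
  have h : Primrec (fun x : ℕ × ℕ => decide (x.2 < x.1) && !((run x.1).L.any (fun e =>
      decide (((get (run x.1).L e.1).getD (fresh 0)).c = x.2)))) := by
    refine Primrec.and.comp ?_ (Primrec.not.comp ?_)
    · have : PrimrecPred (fun x : ℕ × ℕ => x.2 < x.1) := Primrec.nat_lt.comp Primrec.snd Primrec.fst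
      exact this.decide
    · refine pr_any (p := fun (x : ℕ × ℕ) (e : Path × Node) =>
        decide (((get (run x.1).L e.1).getD (fresh 0)).c = x.2))
        (pr_L.comp (pr_run.comp Primrec.fst)) ?_
      have : PrimrecPred (fun z : (ℕ × ℕ) × (Path × Node) =>
          ((get (run z.1.1).L z.2.1).getD (fresh 0)).c = z.1.2) :=
        Primrec.eq.comp (pr_c.comp (pr_look (pr_L.comp (pr_run.comp (Primrec.fst.comp Primrec.fst)))
          (Primrec.fst.comp Primrec.snd))) (Primrec.snd.comp Primrec.fst)
      exact this.decide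
  exact h

theorem pr_ff : Primrec₂ (ff mv) := by
  have h : Primrec (fun x : ℕ × ℕ =>
      (Nat.rec false (fun t b => xor b (par (mv t) x.2)) x.1 : Bool)) := by
    refine Primrec.nat_rec' (f := fun x : ℕ × ℕ => x.1) (g := fun _ => false)
      (h := fun (x : ℕ × ℕ) (y : ℕ × Bool) => xor y.2 (par (mv y.1) x.2)) Primrec.fst
      (Primrec.const false) ?_
    exact (Primrec.dom_bool₂ xor).comp (Primrec.snd.comp Primrec.snd)
      (pr_par.comp (pr_mv.comp (Primrec.fst.comp Primrec.snd)) (Primrec.snd.comp Primrec.fst))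
  have e : ∀ t c, ff mv t c = Nat.rec false (fun t b => xor b (par (mv t) c)) t := by
    intro t c
    induction t with
    | zero => rfl
    | succ t ih => simp only [ff, ih]
  exact h.of_eq (fun x => (e x.1 x.2).symm)

/-! ### the hypotheses of the dichotomy -/

theorem comp_ff : Computable₂ (ff mv) := pr_ff.to_comp

theorem comp_vis (w : Path) : Computable (fun t => decide ((run t).up = false ∧ (run t).p = w)) := by
  have h1 : PrimrecPred (fun t => (run t).up = false ∧ (run t).p = w) :=
    (Primrec.eq.comp (pr_up.comp pr_run) (Primrec.const false)).and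
      (Primrec.eq.comp (pr_p.comp pr_run) (Primrec.const w))
  exact h1.decide.to_comp

theorem comp_s0 (w : Path) : Computable (fun t => ((get (run t).L w).getD (fresh 0)).s0) :=
  (pr_s0.comp (pr_look (pr_L.comp pr_run) (Primrec.const w))).to_comp

theorem comp_dead : Computable₂ dead := pr_dead.to_comp

theorem comp_mv : Computable mv := pr_mv.to_comp

end Pool.Agent.Helper158.FCD
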